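import Pool.Agent.H146Z.PvMain
import Pool.Agent.Helper292.ForceCH

set_option autoImplicit false

open Set Filter Topology
open scoped BoundedContinuousFunction

namespace Pool.Agent.Results.MP_f07f3c_an.ConsistentlyFails

open Pool.Agent.Helper292.ForceCH

/-- (1) The continuum hypothesis can be forced, with `ω₁` preserved. (2) Under the continuum
hypothesis there is a linear isometric embedding `T` of `C (ℕ*)` into itself which is canonized
along no homeomorphism `ψ : F → A*`. -/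
theorem result :
    (∃ (P : Type) (_ : Preorder P), Nonempty P ∧ ∀ p : P,
      p ∈ OmegaOnePreserved P ∧ p ∈ CHHolds P) ∧
    (Cardinal.aleph 1 = Cardinal.continuum.{0} →
      ∀ (X : Set (StoneCech ℕ)), X = (Set.range (stoneCechUnit : ℕ → StoneCech ℕ))ᶜ →
      ∃ T : (X →ᵇ ℝ) →L[ℝ] (X →ᵇ ℝ), (∀ f : X →ᵇ ℝ, ‖T f‖ = ‖f‖) ∧
        ¬ ∃ (A : Set ℕ) (F : Set X) (r : ℝ), A.Infinite ∧ IsClosed F ∧ r ≠ 0 ∧
          ∃ ψ : F ≃ₜ {x : X | (x.1 : StoneCech ℕ) ∈
              closure ((stoneCechUnit : ℕ → StoneCech ℕ) '' A)},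
            ∀ G : C(StoneCech ℕ, ℝ), (∀ n : ℕ, n ∉ A → G (stoneCechUnit n) = 0) →
              ∀ x : F, T ((BoundedContinuousFunction.mkOfCompact G).compContinuous
                ⟨Subtype.val, continuous_subtype_val⟩) x.1 = r * G ((ψ x).1).1) := by
  classical
  refine ⟨?_, fun hCH X hX => ?_⟩
  · obtain ⟨P, i, h1, h2⟩ := exists_forcing
    exact ⟨P, i, h1, fun p => ⟨(h2 p).1, (h2 p).2.2⟩⟩
  subst hX
  obtain ⟨φ, hφ, h⟩ := Pool.Agent.H146Z.Pv.exists_map hCH
  refine ⟨BoundedContinuousFunction.compContinuousCLM ℝ ℝ φ, fun f => ?_, ?_⟩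
  · refine le_antisymm (BoundedContinuousFunction.norm_compContinuous_le f φ) ?_
    refine (BoundedContinuousFunction.norm_le (norm_nonneg _)).2 fun y => ?_
    obtain ⟨x, rfl⟩ := hφ y
    exact (BoundedContinuousFunction.compContinuousCLM ℝ ℝ φ f).norm_coe_le_norm x
  rintro ⟨A, F, r, hA, -, hr, ψ, hψ⟩
  refine h A hA (fun y => (ψ.symm y).1) (continuous_subtype_val.comp ψ.symm.continuous)
    fun a ha y hy => ?_
  let f : ℕ → Bool := fun n => decide (n ∈ a)
  let G : C(StoneCech ℕ, ℝ) := ⟨fun p => if Pool.Agent.H146Z.Pv.ex f p = true then 1 else 0,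
    (continuous_of_discreteTopology (f := fun b : Bool => if b = true then (1 : ℝ) else 0)).comp
      (Pool.Agent.H146Z.Pv.cont_ex f)⟩
  have h1 := hψ G (fun n hn => by
    have : n ∉ a := fun h' => hn (ha h')
    simp [G, Pool.Agent.H146Z.Pv.ex_unit, f, this]) (ψ.symm y)
  rw [ψ.apply_symm_apply] at h1
  obtain ⟨m, h2, h3⟩ := (hy.and (Pool.Agent.H146Z.Pv.ev_ex f y.1.1)).exists
  have h4 : G y.1.1 = 1 := if_pos (by rw [← h3]; simpa [f] using h2)
  have h5 : G (φ (ψ.symm y).1).1 = r := by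
    rw [h4, mul_one] at h1
    exact h1
  have h6 : Pool.Agent.H146Z.Pv.ex f (φ (ψ.symm y).1).1 = true := by
    by_contra h6
    exact hr (h5.symm.trans (if_neg h6))
  filter_upwards [Pool.Agent.H146Z.Pv.ev_ex f (φ (ψ.symm y).1).1] with n hn
  rw [h6] at hn
  simpa [f] using hn

end Pool.Agent.Results.MP_f07f3c_an.ConsistentlyFails
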